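import Pool.Agent.L5helper98.ID.Defs

set_option autoImplicit false

/-! # The Bessel integral (ID-IK) -/

namespace Pool.Agent.L5helper70.ID

open MeasureTheory Set
open Pool.Agent.L5helper98.ID

theorem IK_holds : St_IK := by
  intro κ hκ
  have hπ := Real.pi_pos
  have hD : MeasurableSet (Ioo (-Real.pi) Real.pi) := measurableSet_Ioo
  refine ⟨integral_nonneg fun x => (Real.exp_pos _).le, ?_⟩
  obtain ⟨b, hb⟩ : ∃ b, b = 2 * κ / Real.pi ^ 2 := ⟨_, rfl⟩
  have hb0 : 0 < b := by rw [hb]; positivity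
  have hgi : Integrable (fun x : ℝ => Real.exp κ * Real.exp (-b * x ^ 2)) :=
    (integrable_exp_neg_mul_sq hb0).const_mul _
  have h1 : I κ ≤ ∫ x in Ioo (-Real.pi) Real.pi, Real.exp κ * Real.exp (-b * x ^ 2) := by
    unfold I
    refine integral_mono_of_nonneg (Filter.Eventually.of_forall fun x => (Real.exp_pos _).le)
      hgi.integrableOn ?_
    refine (ae_restrict_iff' hD).2 (Filter.Eventually.of_forall fun x hx => ?_)
    show Real.exp (κ * Real.cos x) ≤ Real.exp κ * Real.exp (-b * x ^ 2)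
    rw [← Real.exp_add]
    refine Real.exp_le_exp.2 ?_
    have h2 : Real.cos x ≤ 1 - 2 / Real.pi ^ 2 * x ^ 2 :=
      Real.cos_le_one_sub_mul_cos_sq (abs_le.2 ⟨hx.1.le, hx.2.le⟩)
    calc κ * Real.cos x ≤ κ * (1 - 2 / Real.pi ^ 2 * x ^ 2) := mul_le_mul_of_nonneg_left h2 hκ.le
      _ = κ + -b * x ^ 2 := by rw [hb]; ring
  have h3 : ∫ x in Ioo (-Real.pi) Real.pi, Real.exp κ * Real.exp (-b * x ^ 2) ≤
      ∫ x, Real.exp κ * Real.exp (-b * x ^ 2) :=
    setIntegral_le_integral hgi (Filter.Eventually.of_forall fun x => by positivity)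
  have h3' : ∫ x : ℝ, Real.exp κ * Real.exp (-b * x ^ 2) =
      Real.exp κ * Real.sqrt (Real.pi / b) := by
    rw [integral_const_mul, integral_gaussian]
  rw [h3'] at h3
  refine (h1.trans h3).trans ?_
  have h4 : Real.sqrt (Real.pi / b) ≤ 4 / Real.sqrt κ := by
    rw [show (4 : ℝ) / Real.sqrt κ = Real.sqrt (16 / κ) by
      rw [Real.sqrt_div (by norm_num), show (16 : ℝ) = 4 ^ 2 by norm_num,
        Real.sqrt_sq (by norm_num)]]
    refine Real.sqrt_le_sqrt ?_
    have e : Real.pi / b = Real.pi ^ 3 / 2 / κ := by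
      rw [hb]
      field_simp
    rw [e]
    refine div_le_div_of_nonneg_right ?_ hκ.le
    have h5 := Real.pi_lt_d2
    have h6 : Real.pi ^ 3 ≤ 3.15 ^ 3 := pow_le_pow_left₀ hπ.le h5.le 3
    norm_num at h6 ⊢
    linarith
  calc Real.exp κ * Real.sqrt (Real.pi / b) ≤ Real.exp κ * (4 / Real.sqrt κ) :=
        mul_le_mul_of_nonneg_left h4 (Real.exp_pos _).le
    _ = 4 * Real.exp κ / Real.sqrt κ := by ring

end Pool.Agent.L5helper70.ID
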